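import Pool.Agent.Helper54.DT.StmtsS

set_option autoImplicit false

/-!
ST_MCI: the encoding of lists of matrices.
-/

namespace Pool.Agent.Helper97.DCT

open Finset Pool.Agent.Helper54.ETR Pool.Agent.Helper54.Poly
open Pool.Agent.Helper54.DT

/-- prefix property -/
def PP {α : Type} (f : α → List Tok) : Prop :=
  ∀ (a b : α) (s t : List Tok), f a ++ s = f b ++ t → a = b ∧ s = t

theorem pp_rep (i : ℕ) : ∀ (j : ℕ) (S T : List Tok),
    List.replicate i Tok.s ++ Tok.e :: S = List.replicate j Tok.s ++ Tok.e :: T →
    i = j ∧ S = T := by
  induction i with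
  | zero =>
    intro j S T h
    cases j with
    | zero => simpa using h
    | succ j => simp [List.replicate_succ] at h
  | succ i ih =>
    intro j S T h
    cases j with
    | zero => simp [List.replicate_succ] at h
    | succ j =>
      simp only [List.replicate_succ, List.cons_append, List.cons.injEq, true_and] at h
      obtain ⟨h1, h2⟩ := ih j S T h
      exact ⟨by rw [h1], h2⟩

theorem pp_term : PP Term.toks := by
  intro a
  induction a with
  | zero => intro b s t h; cases b <;> simp_all [Term.toks]
  | one => intro b s t h; cases b <;> simp_all [Term.toks]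
  | var i =>
    intro b s t h
    cases b with
    | var j =>
      simp only [Term.toks, List.cons_append, List.append_assoc, List.nil_append,
        List.cons.injEq, true_and] at h
      obtain ⟨h1, h2⟩ := pp_rep i j s t h
      exact ⟨by rw [h1], h2⟩
    | zero => simp [Term.toks] at h
    | one => simp [Term.toks] at h
    | add _ _ => simp [Term.toks] at h
    | sub _ _ => simp [Term.toks] at h
    | mul _ _ => simp [Term.toks] at h
  | add a1 a2 ih1 ih2 =>
    intro b s t h
    cases b with
    | add b1 b2 =>
      simp only [Term.toks, List.cons_append, List.append_assoc,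
        List.cons.injEq, true_and] at h
      obtain ⟨h1, h2⟩ := ih1 _ _ _ h
      obtain ⟨h3, h4⟩ := ih2 _ _ _ h2
      exact ⟨by rw [h1, h3], h4⟩
    | zero => simp [Term.toks] at h
    | one => simp [Term.toks] at h
    | var _ => simp [Term.toks] at h
    | sub _ _ => simp [Term.toks] at h
    | mul _ _ => simp [Term.toks] at h
  | sub a1 a2 ih1 ih2 =>
    intro b s t h
    cases b with
    | sub b1 b2 =>
      simp only [Term.toks, List.cons_append, List.append_assoc,
        List.cons.injEq, true_and] at h
      obtain ⟨h1, h2⟩ := ih1 _ _ _ h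
      obtain ⟨h3, h4⟩ := ih2 _ _ _ h2
      exact ⟨by rw [h1, h3], h4⟩
    | zero => simp [Term.toks] at h
    | one => simp [Term.toks] at h
    | var _ => simp [Term.toks] at h
    | add _ _ => simp [Term.toks] at h
    | mul _ _ => simp [Term.toks] at h
  | mul a1 a2 ih1 ih2 =>
    intro b s t h
    cases b with
    | mul b1 b2 =>
      simp only [Term.toks, List.cons_append, List.append_assoc,
        List.cons.injEq, true_and] at h
      obtain ⟨h1, h2⟩ := ih1 _ _ _ h
      obtain ⟨h3, h4⟩ := ih2 _ _ _ h2
      exact ⟨by rw [h1, h3], h4⟩
    | zero => simp [Term.toks] at h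
    | one => simp [Term.toks] at h
    | var _ => simp [Term.toks] at h
    | add _ _ => simp [Term.toks] at h
    | sub _ _ => simp [Term.toks] at h

theorem pp_ltoks {α : Type} {f : α → List Tok} (hf : PP f) : PP (ltoks f) := by
  intro l
  induction l with
  | nil =>
    intro m s t h
    cases m with
    | nil => simpa [ltoks] using h
    | cons b m => simp [ltoks] at h
  | cons a l ih =>
    intro m s t h
    cases m with
    | nil => simp [ltoks] at h
    | cons b m =>
      simp only [ltoks, List.cons_append, List.append_assoc, List.cons.injEq, true_and] at h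
      obtain ⟨h1, h2⟩ := hf _ _ _ _ h
      obtain ⟨h3, h4⟩ := ih _ _ _ h2
      exact ⟨by rw [h1, h3], h4⟩

theorem bits_inj {a b : List Tok} (h : a.flatMap Tok.bits = b.flatMap Tok.bits) : a = b := by
  have h1 := tk_complete a
  rw [h, tk_complete b] at h1
  exact (Prod.mk.inj h1).2.symm

theorem ltoks_map {α β : Type} (g : β → List Tok) (h : α → β) (l : List α) :
    ltoks g (l.map h) = ltoks (fun a => g (h a)) l := by
  induction l with
  | nil => rfl
  | cons a l ih =>
    rw [List.map_cons]
    simp only [ltoks]
    rw [ih]

theorem ltoks_eq {α : Type} (f : α → List Tok) (l : List α) :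
    ltoks f l = l.flatMap (fun a => Tok.and :: f a) ++ [Tok.or] := by
  induction l with
  | nil => rfl
  | cons a l ih =>
    simp only [ltoks]
    rw [ih]
    simp

theorem PTltoks {α β : Type} [TEnc α] [TEnc β] {f : α × β → List Tok} (hf : PT f)
    {l : α → List β} (hl : PT l) : PT (fun a => ltoks (fun b => f (a, b)) (l a)) := by
  have h1 : PT (fun z : α × β => Tok.and :: f z) := PT.lcons (PT.const _) hf
  refine (PT.append (PT.flatMap h1 hl) (PT.const [Tok.or])).congr fun a => ?_
  exact (ltoks_eq _ _).symm

theorem st_MCI : ST_MCI := by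
  refine ⟨fun M N h => ?_, fun M => ?_, ?_⟩
  · have h1 := bits_inj h
    exact (pp_ltoks (pp_ltoks (pp_ltoks pp_term)) M N [] [] (by rw [h1])).1
  · unfold mcode mapM
    rw [ltoks_map]
    simp only [ltoks_map]
  · intro α _ B hB
    refine PTbits ?_
    have h0 : PT (fun z : (α × List (List (List Tok))) × List (List Tok) =>
        ltoks (fun l : List Tok => l) z.2) :=
      PTltoks (α := (α × List (List (List Tok))) × List (List Tok)) (β := List Tok)
        (f := fun z => z.2) PT.id.snd PT.id.snd
    have h1 : PT (fun z : α × List (List (List Tok)) =>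
        ltoks (ltoks fun l : List Tok => l) z.2) := PTltoks h0 PT.id.snd
    exact PTltoks h1 hB

end Pool.Agent.Helper97.DCT
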